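import Pool.Agent.W209.KT.Stm

/-! The measure of the approximable points of level `i`. -/

set_option autoImplicit false

open Filter MeasureTheory

namespace Pool.Agent.W804.KT

open Pool.Agent.W209.KT

theorem nrm_add_le (a b : ℝ) : nrm (a + b) ≤ nrm a + |b| := by
  unfold nrm
  calc |a + b - (round (a + b) : ℝ)| ≤ |a + b - (round a : ℝ)| := round_le _ _
    _ = |(a - (round a : ℝ)) + b| := by ring_nf
    _ ≤ _ := abs_add_le _ _

theorem nrm_sub_le (a b : ℝ) : nrm (a - b) ≤ nrm a + nrm b := by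
  unfold nrm
  calc |a - b - (round (a - b) : ℝ)| ≤ |a - b - ((round a - round b : ℤ) : ℝ)| := round_le _ _
    _ = |(a - (round a : ℝ)) - (b - (round b : ℝ))| := by push_cast; ring_nf
    _ ≤ _ := abs_sub _ _

/-- last coordinates -/
noncomputable def Fl (A : Fin 2 → Fin 11 → ℝ) (B : ℕ) (ψ : ℝ) (z : Fin 2 → ℝ) : Finset ℤ :=
  open Classical in
  (Finset.Icc (-(B : ℤ)) (B : ℤ)).filter (fun m : ℤ => ∀ j, nrm (z j + A j 10 * (m : ℝ)) ≤ 11 * ψ)

theorem card_Fl (A : Fin 2 → Fin 11 → ℝ) (B L : ℕ) (ψ : ℝ) (z : Fin 2 → ℝ) (hBL : 2 * B ≤ L) :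
    (Fl A B ψ z).card ≤ cnt (fun j => A j 10) L (22 * ψ) := by
  classical
  rcases (Fl A B ψ z).eq_empty_or_nonempty with h | ⟨m0, hm0⟩
  · rw [h]
    simp
  · have hm0' := Finset.mem_filter.1 hm0
    have hm0I := Finset.mem_Icc.1 hm0'.1
    have hfin : ({y : ℤ | |y| ≤ (L : ℤ) ∧ ∀ j, nrm (A j 10 * y) ≤ 22 * ψ} : Set ℤ).Finite := by
      refine (Set.finite_Icc (-(L : ℤ)) (L : ℤ)).subset ?_
      intro y hy
      exact abs_le.1 hy.1
    unfold cnt
    rw [← Set.ncard_coe_finset]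
    refine Set.ncard_le_ncard_of_injOn (fun m => m - m0) ?_ ?_ hfin
    · intro m hm
      have hm' := Finset.mem_filter.1 (Finset.mem_coe.1 hm)
      have hmI := Finset.mem_Icc.1 hm'.1
      refine ⟨?_, ?_⟩
      · rw [abs_le]
        constructor
        · have := hmI.1
          have := hm0I.2
          push_cast at *
          omega
        · have := hmI.2
          have := hm0I.1
          push_cast at *
          omega
      · intro j
        have e : A j 10 * ((m - m0 : ℤ) : ℝ) =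
            (z j + A j 10 * (m : ℝ)) - (z j + A j 10 * (m0 : ℝ)) := by
          push_cast
          ring
        show nrm (A j 10 * ((m - m0 : ℤ) : ℝ)) ≤ 22 * ψ
        rw [e]
        refine (nrm_sub_le _ _).trans ?_
        have h1 := hm'.2 j
        have h2 := hm0'.2 j
        linarith
    · intro a _ b _ hab
      have : a - m0 = b - m0 := hab
      omega

theorem vol : S_vol := by
  classical
  intro A hA R i ψ hR hψ hψ1
  set Q : ℕ := 2 ^ i with hQ
  have hQ1 : 1 ≤ Q := Nat.one_le_two_pow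
  have hQR : 1 ≤ Q * R := Nat.mul_pos hQ1 hR
  set B : ℕ := 3 * Q * R with hB
  set P : Finset (Fin 9 → ℤ) := Fintype.piFinset (fun _ => Finset.Icc (-(B : ℤ)) (B : ℤ)) with hP
  let z : ℕ → (Fin 9 → ℤ) → Fin 2 → ℝ := fun q p j =>
    A j 0 * q + ∑ l : Fin 9, A j l.castSucc.succ * (p l : ℝ)
  let c : ℕ → (Fin 9 → ℤ) → ℤ → Fin 10 → ℝ := fun q p m =>
    Fin.snoc (α := fun _ => ℝ) (fun l => (p l : ℝ) / q) ((m : ℝ) / q)
  have hQr : (0 : ℝ) < (Q : ℝ) := by exact_mod_cast hQ1
  have hsub : {x : Fin 10 → ℝ | (∀ l, |x l| ≤ R) ∧ ∃ q : ℕ, Q ≤ q ∧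
      q < 2 ^ (i + 1) ∧ ∀ j, nrm (q * pt A x j) < ψ} ⊆
      ⋃ q ∈ Finset.Ico Q (2 * Q), ⋃ p ∈ P, ⋃ m ∈ Fl A B ψ (z q p), Metric.ball (c q p m) (ψ / Q) := by
    rintro x ⟨hx, q, hq1, hq2, hq⟩
    have hq2' : q < 2 * Q := by rw [hQ, ← pow_succ']; exact hq2
    have hqpos : (0 : ℝ) < (q : ℝ) := by
      have : 0 < q := lt_of_lt_of_le hQ1 hq1
      exact_mod_cast this
    have hl : ∀ l : Fin 10, |(q : ℝ) * x l - (round ((q : ℝ) * x l) : ℝ)| < ψ := by
      intro l
      have h := hq (Fin.castAdd 2 l)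
      have e : pt A x (Fin.castAdd 2 l) = x l := by
        unfold pt
        exact Fin.append_left _ _ l
      rw [e] at h
      exact h
    have hj : ∀ j : Fin 2, nrm ((q : ℝ) * aff A j x) < ψ := by
      intro j
      have h := hq (Fin.natAdd 10 j)
      have e : pt A x (Fin.natAdd 10 j) = aff A j x := by
        unfold pt
        exact Fin.append_right _ _ j
      rw [e] at h
      exact h
    have hbd : ∀ l : Fin 10, -(B : ℤ) ≤ round ((q : ℝ) * x l) ∧ round ((q : ℝ) * x l) ≤ (B : ℤ) := by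
      intro l
      have h1 := hl l
      have h2 : |(q : ℝ) * x l| ≤ q * R := by
        rw [abs_mul, abs_of_pos hqpos]
        exact mul_le_mul_of_nonneg_left (hx l) hqpos.le
      have h3 : |(round ((q : ℝ) * x l) : ℝ)| ≤ (B : ℝ) := by
        have h4 : |(round ((q : ℝ) * x l) : ℝ)| ≤ |(q : ℝ) * x l| + ψ := by
          have h5 := abs_sub_abs_le_abs_sub ((round ((q : ℝ) * x l) : ℝ)) ((q : ℝ) * x l)
          rw [abs_sub_comm] at h5
          linarith
        have h6 : (q : ℝ) ≤ 2 * Q := by exact_mod_cast hq2'.le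
        have h7 : (1 : ℝ) ≤ (Q : ℝ) * R := by exact_mod_cast hQR
        have h8 : (q : ℝ) * R ≤ 2 * Q * R := mul_le_mul_of_nonneg_right h6 (Nat.cast_nonneg R)
        have h9 : (B : ℝ) = 3 * Q * R := by rw [hB]; push_cast; ring
        rw [h9]
        linarith
      have h10 := abs_le.1 h3
      constructor
      · exact_mod_cast h10.1
      · exact_mod_cast h10.2
    simp only [Set.mem_iUnion]
    refine ⟨q, Finset.mem_Ico.2 ⟨hq1, hq2'⟩, fun l => round ((q : ℝ) * x l.castSucc), ?_,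
      round ((q : ℝ) * x (Fin.last 9)), ?_, ?_⟩
    · rw [hP, Fintype.mem_piFinset]
      intro l
      exact Finset.mem_Icc.2 (hbd _)
    · unfold Fl
      rw [Finset.mem_filter]
      refine ⟨Finset.mem_Icc.2 (hbd _), ?_⟩
      intro j
      have hsum : z q (fun l => round ((q : ℝ) * x l.castSucc)) j +
          A j 10 * ((round ((q : ℝ) * x (Fin.last 9)) : ℤ) : ℝ) =
          (q : ℝ) * aff A j x +
            ∑ l : Fin 10, A j l.succ * ((round ((q : ℝ) * x l) : ℝ) - (q : ℝ) * x l) := by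
        have e1 : ∑ l : Fin 10, A j l.succ * ((round ((q : ℝ) * x l) : ℝ) - (q : ℝ) * x l) =
            (∑ l : Fin 10, A j l.succ * (round ((q : ℝ) * x l) : ℝ)) -
              (q : ℝ) * ∑ l : Fin 10, A j l.succ * x l := by
          rw [Finset.mul_sum, ← Finset.sum_sub_distrib]
          refine Finset.sum_congr rfl ?_
          intro l _
          ring
        have e2 : ∑ l : Fin 10, A j l.succ * (round ((q : ℝ) * x l) : ℝ) =
            (∑ l : Fin 9, A j l.castSucc.succ * (round ((q : ℝ) * x l.castSucc) : ℝ)) +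
              A j (Fin.last 9).succ * (round ((q : ℝ) * x (Fin.last 9)) : ℝ) :=
          Fin.sum_univ_castSucc _
        rw [e1, e2]
        have e3 : (Fin.last 9).succ = (10 : Fin 11) := rfl
        rw [e3]
        simp only [z, aff]
        ring
      rw [hsum]
      refine (nrm_add_le _ _).trans ?_
      have hS : |∑ l : Fin 10, A j l.succ * ((round ((q : ℝ) * x l) : ℝ) - (q : ℝ) * x l)| ≤
          10 * ψ := by
        refine (Finset.abs_sum_le_sum_abs _ _).trans ?_
        calc ∑ l : Fin 10, |A j l.succ * ((round ((q : ℝ) * x l) : ℝ) - (q : ℝ) * x l)| ≤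
              ∑ l : Fin 10, ψ := by
              refine Finset.sum_le_sum ?_
              intro l _
              rw [abs_mul]
              have h1 := hA j l.succ
              have h2 := hl l
              rw [abs_sub_comm] at h2
              calc |A j l.succ| * |(round ((q : ℝ) * x l) : ℝ) - (q : ℝ) * x l| ≤ 1 * ψ :=
                    mul_le_mul h1 h2.le (abs_nonneg _) zero_le_one
                _ = ψ := one_mul _
          _ = 10 * ψ := by
              rw [Finset.sum_const, Finset.card_univ, Fintype.card_fin, nsmul_eq_mul]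
              norm_num
      have := hj j
      linarith
    · rw [Metric.mem_ball, dist_pi_lt_iff (div_pos hψ hQr)]
      have key : ∀ l : Fin 10, |x l - (round ((q : ℝ) * x l) : ℝ) / q| < ψ / Q := by
        intro l
        have e : x l - (round ((q : ℝ) * x l) : ℝ) / q =
            ((q : ℝ) * x l - (round ((q : ℝ) * x l) : ℝ)) / q := by
          field_simp
        rw [e, abs_div, abs_of_pos hqpos]
        calc |(q : ℝ) * x l - (round ((q : ℝ) * x l) : ℝ)| / q < ψ / q :=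
              div_lt_div_of_pos_right (hl l) hqpos
          _ ≤ ψ / Q := by
              apply div_le_div_of_nonneg_left hψ.le hQr
              exact_mod_cast hq1
      intro l
      rw [Real.dist_eq]
      refine Fin.lastCases ?_ (fun l => ?_) l
      · simp only [c, Fin.snoc_last]
        exact key _
      · simp only [c, Fin.snoc_castSucc]
        exact key _
  set N0 : ℕ := cnt (fun j => A j 10) (8 * R * Q) (22 * ψ) with hN0
  have hball : ∀ q p m, volume (Metric.ball (c q p m) (ψ / Q)) = ENNReal.ofReal ((2 * (ψ / Q)) ^ 10) := by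
    intro q p m
    rw [Real.volume_pi_ball _ (div_pos hψ hQr), Fintype.card_fin]
  have h1 : volume {x : Fin 10 → ℝ | (∀ l, |x l| ≤ R) ∧ ∃ q : ℕ, Q ≤ q ∧
      q < 2 ^ (i + 1) ∧ ∀ j, nrm (q * pt A x j) < ψ} ≤
      ∑ q ∈ Finset.Ico Q (2 * Q), ∑ p ∈ P, ∑ m ∈ Fl A B ψ (z q p),
        ENNReal.ofReal ((2 * (ψ / Q)) ^ 10) := by
    refine (measure_mono hsub).trans ?_
    refine (measure_biUnion_finset_le _ _).trans ?_
    refine Finset.sum_le_sum fun q _ => ?_
    refine (measure_biUnion_finset_le _ _).trans ?_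
    refine Finset.sum_le_sum fun p _ => ?_
    refine (measure_biUnion_finset_le _ _).trans ?_
    refine Finset.sum_le_sum fun m _ => ?_
    rw [hball]
  have h2 : ∑ q ∈ Finset.Ico Q (2 * Q), ∑ p ∈ P, ∑ m ∈ Fl A B ψ (z q p),
        ENNReal.ofReal ((2 * (ψ / Q)) ^ 10) ≤
      ∑ q ∈ Finset.Ico Q (2 * Q), ∑ p ∈ P, (N0 : ENNReal) * ENNReal.ofReal ((2 * (ψ / Q)) ^ 10) := by
    refine Finset.sum_le_sum fun q _ => ?_
    refine Finset.sum_le_sum fun p _ => ?_
    rw [Finset.sum_const, nsmul_eq_mul]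
    apply mul_le_mul_left
    have h3 := card_Fl A B (8 * R * Q) ψ (z q p) (by rw [hB]; nlinarith)
    exact_mod_cast h3
  refine h1.trans (h2.trans ?_)
  have hcard : P.card = (2 * B + 1) ^ 9 := by
    rw [hP, Fintype.card_piFinset_const, Int.card_Icc]
    congr 1
    omega
  rw [Finset.sum_const, Finset.sum_const, Nat.card_Ico, hcard, nsmul_eq_mul, nsmul_eq_mul]
  have e4 : ((2 * Q - Q : ℕ) : ENNReal) = ENNReal.ofReal (Q : ℝ) := by
    rw [ENNReal.ofReal_natCast]
    congr 1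
    omega
  have e5 : (((2 * B + 1) ^ 9 : ℕ) : ENNReal) = ENNReal.ofReal ((2 * (B : ℝ) + 1) ^ 9) := by
    rw [← ENNReal.ofReal_natCast]
    push_cast
    rfl
  have e6 : (N0 : ENNReal) = ENNReal.ofReal (N0 : ℝ) := by rw [ENNReal.ofReal_natCast]
  rw [e4, e5, e6, ← ENNReal.ofReal_mul (Nat.cast_nonneg _), ← ENNReal.ofReal_mul (by positivity),
    ← ENNReal.ofReal_mul (Nat.cast_nonneg _)]
  apply ENNReal.ofReal_le_ofReal
  have hRr : (1 : ℝ) ≤ (R : ℝ) := by exact_mod_cast hR
  have hBr : 2 * (B : ℝ) + 1 ≤ 7 * (Q * R) := by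
    have h7 : (1 : ℝ) ≤ (Q : ℝ) * R := by exact_mod_cast hQR
    have h9 : (B : ℝ) = 3 * Q * R := by rw [hB]; push_cast; ring
    rw [h9]
    linarith
  have hpow : (2 * (B : ℝ) + 1) ^ 9 ≤ (7 * (Q * R)) ^ 9 := pow_le_pow_left₀ (by positivity) hBr 9
  have hN0' : (0 : ℝ) ≤ (N0 : ℝ) := Nat.cast_nonneg _
  have hfin : (Q : ℝ) * ((2 * (B : ℝ) + 1) ^ 9 * ((N0 : ℝ) * (2 * (ψ / Q)) ^ 10)) ≤
      (Q : ℝ) * ((7 * (Q * R)) ^ 9 * ((N0 : ℝ) * (2 * (ψ / Q)) ^ 10)) := by
    apply mul_le_mul_of_nonneg_left _ hQr.le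
    apply mul_le_mul_of_nonneg_right hpow
    positivity
  refine hfin.trans ?_
  have e7 : (Q : ℝ) * ((7 * (Q * R)) ^ 9 * ((N0 : ℝ) * (2 * (ψ / Q)) ^ 10)) =
      (7 ^ 9 * 2 ^ 10) * (R : ℝ) ^ 9 * (ψ ^ 10 * N0) := by
    have hQne : (Q : ℝ) ≠ 0 := hQr.ne'
    field_simp
  rw [e7]
  have e8 : (100 * (R : ℝ)) ^ 10 * ψ ^ 10 * (N0 : ℝ) =
      (100 ^ 10 * (R : ℝ) ^ 10) * (ψ ^ 10 * N0) := by ring
  rw [e8]
  apply mul_le_mul_of_nonneg_right _ (by positivity)
  have h11 : (R : ℝ) ^ 9 ≤ (R : ℝ) ^ 10 := pow_le_pow_right₀ hRr (by norm_num)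
  have h12 : (0 : ℝ) ≤ (R : ℝ) ^ 9 := by positivity
  nlinarith

end Pool.Agent.W804.KT
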